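import Pool.Agent.H.MP_12bd27_co.B

set_option autoImplicit false

namespace Pool.Agent.Results.MP_12bd27_co.No

open Pool.Agent.H.MP_12bd27_co

theorem result : ∃ A : Set (Set ℂ), IsPatch A ∧ (∃ T, IsTiling T ∧ A ⊆ T) ∧
    ¬ ∃ B, IsPatch B ∧ A ⊆ B ∧ Convex ℝ (body B) := main

end Pool.Agent.Results.MP_12bd27_co.No
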